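import Mathlib
import Pool.Agent.H317.GR.StmB

/-!
# Project GH: homomorphisms between the groups in the genus of `SL_n(ℤ)` (statements, with complete paper proofs)

Goal: (1) a homomorphism `φ : Λ₁ → Λ₂` between finitely generated residually finite groups with the finite quotients of `SL_n(ℤ)`, `n ≥ 3`, has finite image or is
injective and induces an isomorphism of the profinite completions; (2) homomorphisms `SL_n(ℤ) → Λ` with infinite image are isomorphisms; (3) two homomorphisms `Λ → SL_n(ℤ)` with infinite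
images differ by an automorphism of `SL_n(ℤ)`; (4) representations of `Λ` of degree `n` with infinite image.

The statements `S_CNJ`, `S_PAI`, … of project GR (`Pool/Agent/H317/GR/StmA.lean`, `StmB.lean`) are proved (`Pool/Agent/H317/GR/All.lean`); here they are used as hypotheses, as indicated.
-/

set_option autoImplicit false

namespace Pool.Agent.H317.GH

open Matrix Module Pool.Agent.H317.GR

/-- **BUR** (Burnside). Irreducible representations over algebraically closed fields are absolutely irreducible in the sense of the trace form.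

Proof. `n = 0` is trivial. Let `n ≥ 1`, `V = Fin n → K`, and let `A ⊆ End V` be the span of the `τ g`, a subalgebra. `V` is a simple `A`-module, and `End_A V = K` (Schur: an `A`-endomorphism has an eigenvalue, the
eigenspace is invariant). By the density theorem (Mathlib: search for `jacobson_density` / `Burnside`; library: grep Burnside in `Pool/Graph/INDEX.tsv`, e.g. the modules used for `S_IRR`, `Pool/Agent/H344/GR/IRR.lean`) `A = End V`. If `tr(X τ(g)) = 0` for all `g` then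
`tr(X Y) = 0` for all matrices `Y`, so `X = 0` (take `Y = E_ji`).

Direct proof without density: let `X ≠ 0` with `tr(X τ(g)) = 0` for all `g`. Let `J = {Y | ∀ g, tr(Y τ(g)) = 0}`, a subspace with `J τ(h) ⊆ J`, `τ(h) J ⊆ J`, and `J ≠ 0`. Choose `Y ∈ J`, `Y ≠ 0` of minimal rank `r`. If `r = 1`, `Y = v φ`, then `φ τ(g) v = 0` for all `g`, so the
span of the `τ(g) v` is an invariant subspace, nonzero and contained in `ker φ`, a contradiction. If `r ≥ 2`: choose `v₁, v₂` with `Y v₁`, `Y v₂` linearly independent; the span of the `τ(g) Y v₁` is `V`, so there is `a = ∑ c_g τ(g)` with `a Y v₁ = v₂`; then `Y a Y v₁ = Y v₂` and `Y v₁` are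
independent. On the space `Y V` (dimension `r`, `K` algebraically closed) the operator `Y a` has an eigenvalue `λ`; `Y a Y - λ Y ∈ J` has rank `< r` (its image is `(Y a - λ)(Y V)`, of dimension `< r`), and it is not zero (`Y a Y v₁ ≠ λ Y v₁`), a contradiction. -/
def S_BUR : Prop := ∀ (K : Type) [Field K] [IsAlgClosed K] (G : Type) [Group G] (n : ℕ)
  (τ : G →* GL (Fin n) K),
  (∀ W : Submodule K (Fin n → K), (∀ g, ∀ v ∈ W, (τ g).val *ᵥ v ∈ W) → W = ⊥ ∨ W = ⊤) → AI τ

/-- **IRN** (hypothesis `S_BUR`). Nontrivial representations of degree `n` of `Λ` are irreducible.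

Proof. Library: `Pool.Agent.Results.MP_a2a22c_al.SmallRepresentations.result` (`Pool/Graph/R_pool_sql_team_seeded_63374d34/Results/MP_a2a22c_al/SmallRepresentations.lean`): every homomorphism `Λ → GL_d(R)` with `d < n` is trivial; and
`NoSmallRepresentations.result` (`Pool/Graph/R_pool_sql_team_seeded_64922ed1/Results/MP_a2a22c_al/NoSmallRepresentations.lean`), part (1): homomorphisms to abelian groups are trivial; part (2): every action by `R`-linear maps on a module with a spanning set of fewer than `n` elements is trivial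
(this is the most convenient form: no bases needed). Let `W` be an invariant subspace, `W ≠ ⊥`, `W ≠ ⊤`. `W` and `V ⧸ W` have dimension `< n`, so `Λ` acts trivially on both (part (2), with a finite basis as the spanning set). So `(τ(g) - 1) V ⊆ W`, `(τ(g) - 1) W = 0`, so
`τ(g) τ(h) = τ(g) + τ(h) - 1 = τ(h) τ(g)`. So the image of `τ` is commutative, hence trivial (part (1), for the commutative group `τ.range`), a contradiction. Apply `S_BUR`. -/
def S_IRN : Prop := ∀ (n : ℕ), 3 ≤ n → ∀ (Λ : Type) [Group Λ] [Group.FG Λ], QLE Λ (SZ n) →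
  ∀ (K : Type) [Field K] [IsAlgClosed K] [CharZero K] (τ : Λ →* GL (Fin n) K),
  (∃ g, τ g ≠ 1) → AI τ

/-- **NFC** (hypotheses `S_IRN`, `S_CNJ`). A representation of degree `n` with infinite image does not have the character of one with finite image.

Proof. `τ` is nontrivial, so `AI τ`. If `tr τ = tr τ'` with `τ'` of finite image, `S_CNJ` (with `ρ = τ`, `σ = τ'`) gives `P` with `τ'(g) P = P τ(g)`, so `τ(g) = P⁻¹ τ'(g) P` and `τ` has finite image, a contradiction. -/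
def S_NFC : Prop := ∀ (n : ℕ), 3 ≤ n → ∀ (Λ : Type) [Group Λ] [Group.FG Λ], QLE Λ (SZ n) →
  ∀ (K : Type) [Field K] [IsAlgClosed K] [CharZero K] (τ : Λ →* GL (Fin n) K),
  (Set.range τ).Infinite → (fun g => (τ g).val.trace) ∉ finChars Λ n K

/-- **PRX** (hypotheses `S_CNT`, `S_NFC`). Two representations of degree `n` with infinite images have the same character up to duality.

Proof. `X = chars Λ n K \ finChars Λ n K` has two elements (`S_CNT`). `χ = tr τ`, `χ'(g) = tr τ(g⁻¹)` (the character of the contragredient representation `g ↦ (τ(g)⁻¹)ᵀ`, which has infinite image too; write `(τ g⁻¹).valᵀ`) are in `X` (`S_NFC`) and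
different (hypothesis), so `X = {χ, χ'}`, and `tr τ' ∈ X` (`S_NFC`). -/
def S_PRX : Prop := ∀ (n : ℕ), 3 ≤ n → ∀ (Λ : Type) [Group Λ] [Group.FG Λ],
  QLE Λ (SZ n) → QLE (SZ n) Λ →
  ∀ (K : Type) [Field K] [IsAlgClosed K] [CharZero K] (τ τ' : Λ →* GL (Fin n) K),
  (Set.range τ).Infinite → (Set.range τ').Infinite →
  (∃ g, (τ g).val.trace ≠ (τ g⁻¹).val.trace) →
  (∀ g, (τ' g).val.trace = (τ g).val.trace) ∨ (∀ g, (τ' g).val.trace = (τ g⁻¹).val.trace)

/-- **INH**. Integrality of the intertwining matrix, second form (`S_ING` with `σ` over `ℤ_[p]` in place of `ℤ`; the proof is `Pool/Agent/H322/GR/ING.lean` with small changes).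

Proof. Multiply `P` by a nonzero scalar such that all entries are in `ℤ_[p]` and one entry is not divisible by `p`. Let `P̄ ≠ 0` be its reduction modulo `p`. `σ(g) P = P ρ(g)` holds over `ℤ_[p]`, so modulo `p`. Let `w ∈ 𝔽_p^n` be in the kernel of `P̄`: `P̄ ρ(g) w = σ(g) P̄ w = 0`.
As `ρ(Λ)` modulo `p` contains all `A ∈ SL_n(ℤ)` modulo `p`, the kernel is stable under `E_ij`, `i ≠ j`, so it is `0` or everything; `P̄ ≠ 0`, so `P̄` is invertible, `det P` is a unit and `T = P` works. -/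
def S_INH : Prop := ∀ (n : ℕ), 2 ≤ n → ∀ (p : ℕ) [Fact p.Prime] (Λ : Type) [Group Λ]
  (ρ σ : Λ →* SpecialLinearGroup (Fin n) ℤ_[p]), DenseP ρ →
  ∀ P : GL (Fin n) ℚ_[p], (∀ g, toQ n p (σ g) * P = P * toQ n p (ρ g)) →
  ∃ T : GL (Fin n) ℤ_[p],
    ∀ g, SpecialLinearGroup.toGL (σ g) * T = T * SpecialLinearGroup.toGL (ρ g)

/-- **MOE**. Equality of the kernels modulo all `m` (as in `S_MOD`, `Pool/Agent/H640/GR/MOD.lean`).

Proof. For a prime `p` and `k`: `σ(g) = T ρ(g) T⁻¹`, so modulo `p^k` `σ(g)` is the identity matrix if and only if `ρ(g)` is, i.e. `h (p^k) g = 1 ↔ f (p^k) g = 1`. For general `m > 0`, `f m g = 1` if and only if `f (p^k) g = 1` for all prime powers `p^k ∣ m` (by `Compat`; and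
an element of `ZMod m` is zero if its images in `ZMod (p^k)` for all prime powers `p^k ∣ m` are zero), and the same for `h`. -/
def S_MOE : Prop := ∀ (n : ℕ) (Λ : Type) [Group Λ]
  (f h : ∀ m : ℕ, Λ →* SpecialLinearGroup (Fin n) (ZMod m)), Compat f → Compat h →
  (∀ (p : ℕ) [Fact p.Prime], ∃ (ρ σ : Λ →* SpecialLinearGroup (Fin n) ℤ_[p]) (T : GL (Fin n) ℤ_[p]),
    (∀ (k : ℕ) (g : Λ), SpecialLinearGroup.map (PadicInt.toZModPow k) (ρ g) = 1 ↔ f (p ^ k) g = 1) ∧
    (∀ (k : ℕ) (g : Λ), SpecialLinearGroup.map (PadicInt.toZModPow k) (σ g) = 1 ↔ h (p ^ k) g = 1) ∧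
    ∀ g, SpecialLinearGroup.toGL (σ g) * T = T * SpecialLinearGroup.toGL (ρ g)) →
  ∀ m : ℕ, 0 < m → ∀ g, h m g = 1 ↔ f m g = 1

/-- **KEQ** (hypotheses `S_PRX`, `S_PAI`, `S_CNJ`, `S_INH`, `S_MOE`). A homomorphism with infinite image is compatible with the congruence kernels.

Proof. Fix a prime `p`, let `K = AlgebraicClosure ℚ_[p]`, `τ = (GeneralLinearGroup.map (algebraMap ℚ_[p] K)) ∘ toQ ∘ ρ₁`, `τ' = (GeneralLinearGroup.map …) ∘ toQ ∘ ρ₂ ∘ φ` (as representations of `Λ₁`). `τ` has infinite image since it has infinitely many traces (`S_PAI`), and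
`tr τ(g) ≠ tr τ(g⁻¹)` for some `g` (`S_PAI`; `ℤ_[p] → K` is injective). `τ'` has infinite image since `ρ₂`, `toQ` (`Pool.Agent.H317.GR.toQ_inj` in `Pool/Agent/H317/GR/Main.lean`) and `GeneralLinearGroup.map` (`glmap_inj`, same file) are injective. By `S_PRX` `tr ρ₂(φ g) = tr ρ₁(g)` for all `g`, or
`tr ρ₂(φ g) = tr ρ₁(g⁻¹)` for all `g` (in `K`, so in `ℤ_[p]`, `ℚ_[p]`). Put `ρ' = ρ₁` resp. `ρ' = dl ∘ ρ₁` (`tr dl(A) = tr A⁻¹`); `ρ'` is `DenseP` (`S_PAI`), `toQ ∘ ρ'` is `AI` (`S_PAI` for `ρ'`), and it has the same traces as `toQ ∘ ρ₂ ∘ φ`. `S_CNJ` over `ℚ_[p]` gives `P`, and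
`S_INH` gives `T`. `ρ'(g) ≡ 1 mod p^k` iff `ρ₁(g) ≡ 1 mod p^k` iff `f₁ (p^k) g = 1`. Apply `S_MOE` with `f = f₁`, `h m = (f₂ m) ∘ φ`. -/
def S_KEQ : Prop := ∀ (n : ℕ), 3 ≤ n → ∀ (Λ₁ Λ₂ : Type) [Group Λ₁] [Group Λ₂] [Group.FG Λ₁],
  QLE Λ₁ (SZ n) → QLE (SZ n) Λ₁ →
  ∀ (f₁ : ∀ m : ℕ, Λ₁ →* SpecialLinearGroup (Fin n) (ZMod m))
    (f₂ : ∀ m : ℕ, Λ₂ →* SpecialLinearGroup (Fin n) (ZMod m)), Compat f₁ → Compat f₂ →
  ∀ (ρ₁ : ∀ (p : ℕ) [Fact p.Prime], Λ₁ →* SpecialLinearGroup (Fin n) ℤ_[p])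
    (ρ₂ : ∀ (p : ℕ) [Fact p.Prime], Λ₂ →* SpecialLinearGroup (Fin n) ℤ_[p]),
  (∀ (p : ℕ) [Fact p.Prime] (k : ℕ) (g : Λ₁),
    SpecialLinearGroup.map (PadicInt.toZModPow k) (ρ₁ p g) = f₁ (p ^ k) g) →
  (∀ (p : ℕ) [Fact p.Prime] (k : ℕ) (g : Λ₂),
    SpecialLinearGroup.map (PadicInt.toZModPow k) (ρ₂ p g) = f₂ (p ^ k) g) →
  (∀ (p : ℕ) [Fact p.Prime], DenseP (ρ₁ p)) →
  (∀ (p : ℕ) [Fact p.Prime], Function.Injective (ρ₂ p)) →
  ∀ φ : Λ₁ →* Λ₂, (Set.range φ).Infinite →
  ∀ m : ℕ, 0 < m → ∀ g, f₂ m (φ g) = 1 ↔ f₁ m g = 1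

/-- **BIJ** (hypotheses `S_HOM`, `S_FAC`). The isomorphism of the profinite completions: homomorphisms to finite groups extend uniquely along `φ`.

Proof. `QLE` is transitive, so `QLE Λ₁ Λ₂` and `QLE Λ₂ Λ₁`; by `S_HOM` in both directions `|Hom(Λ₁, Q)| = |Hom(Λ₂, Q)|`, and these sets are finite (finitely generated groups; a homomorphism is determined by its values on a finite generating set). So it is enough that `v ↦ v ∘ φ` is injective
(`Function.Injective.bijective_of_nat_card_le` or similar). By `S_FAC` for `Λ₂` and `Q` there is `M > 0` such that `ker (f₂ M) ≤ ker v` for all `v : Λ₂ → Q`. The homomorphism `(f₂ M) ∘ φ` has the same kernel as the surjective `f₁ M`, so its image has as many elements as the finite group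
`SL_n(ℤ/M)`, so it is surjective. Let `v ∘ φ = v' ∘ φ` and `y ∈ Λ₂`; choose `x` with `f₂ M (φ x) = f₂ M y`; then `v y = v (φ x) = v' (φ x) = v' y`. -/
def S_BIJ : Prop := ∀ (n : ℕ), 3 ≤ n → ∀ (Λ₁ Λ₂ : Type) [Group Λ₁] [Group Λ₂] [Group.FG Λ₁]
  [Group.FG Λ₂], QLE Λ₁ (SZ n) → QLE (SZ n) Λ₁ → QLE Λ₂ (SZ n) → QLE (SZ n) Λ₂ →
  ∀ (f₁ : ∀ m : ℕ, Λ₁ →* SpecialLinearGroup (Fin n) (ZMod m))
    (f₂ : ∀ m : ℕ, Λ₂ →* SpecialLinearGroup (Fin n) (ZMod m)),
  (∀ m, 0 < m → Function.Surjective (f₁ m)) → (∀ m, 0 < m → Function.Surjective (f₂ m)) →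
  ∀ φ : Λ₁ →* Λ₂, (∀ m : ℕ, 0 < m → ∀ g, f₂ m (φ g) = 1 ↔ f₁ m g = 1) →
  ∀ (Q : Type) [Group Q] [Finite Q], Function.Bijective (fun v : Λ₂ →* Q => v.comp φ)

/-- **AIQ**. A homomorphism to `SL_n(ℤ)` which is surjective modulo one prime is absolutely irreducible over `ℚ`.

Proof. Let `0 ≠ X ∈ M_n(ℚ)` with `tr(X φ(g)) = 0` for all `g`; multiply by a rational number such that all entries are integers, with one of them not divisible by `p` (clear denominators, then divide by the largest possible power of `p`). For all `A ∈ SL_n(ℤ)`: `tr(X A) ≡ tr(X φ(g)) = 0 mod p`. With `A = 1` and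
`A = 1 + E_ij`: `X_ji ≡ 0` (`i ≠ j`), and with `A = (1+E_ij)(1+E_ji) = 1 + E_ij + E_ji + E_ii`: `X_ii ≡ 0 mod p`. A contradiction. (Compare part (3) of `Pool/Agent/H322/GR/PAI.lean`.) -/
def S_AIQ : Prop := ∀ (n : ℕ), 2 ≤ n → ∀ (Λ : Type) [Group Λ] (φ : Λ →* SZ n) (p : ℕ), p.Prime →
  (∀ A : SZ n, ∃ g, ∀ i j : Fin n, (p : ℤ) ∣ (φ g).val i j - A.val i j) → AI ((std n ℚ).comp φ)

/-- **ZCJ**. Conjugation over `ℚ` implies conjugation over `ℤ`.

Proof. Multiply `P` by a rational number such that it is an integral matrix with entries of gcd `1`. `φ₂(g) P = P φ₁(g)` over `ℤ`. Let `p` be a prime; `P` modulo `p` is not zero. If `w ∈ 𝔽_p^n` is in the kernel of `P` modulo `p`, then so is `φ₁(g) w`; as `φ₁` is surjective modulo `p`, the kernel is stable under all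
`1 + E_ij`, so under `E_ij`, `i ≠ j`, so it is `0` or everything (as in `S_ING`, `Pool/Agent/H322/GR/ING.lean`); it is not everything, so `p` does not divide `det P`. So `det P = ± 1`, and `T = P`. -/
def S_ZCJ : Prop := ∀ (n : ℕ), 2 ≤ n → ∀ (Λ : Type) [Group Λ] (φ₁ φ₂ : Λ →* SZ n),
  (∀ p : ℕ, p.Prime → ∀ A : SZ n, ∃ g, ∀ i j : Fin n, (p : ℤ) ∣ (φ₁ g).val i j - A.val i j) →
  ∀ P : GL (Fin n) ℚ, (∀ g, std n ℚ (φ₂ g) * P = P * std n ℚ (φ₁ g)) →
  ∃ T : GL (Fin n) ℤ, ∀ g, SpecialLinearGroup.toGL (φ₂ g) * T = T * SpecialLinearGroup.toGL (φ₁ g)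

/-- **AUT**. Automorphisms of `SL_n(ℤ)`.

Proof. Conjugation by `T` preserves the determinant. `dl` is an involution. -/
def S_AUT : Prop := ∀ (n : ℕ),
  (∀ T : GL (Fin n) ℤ, ∃ α : SZ n ≃* SZ n, ∀ A,
    SpecialLinearGroup.toGL (α A) * T = T * SpecialLinearGroup.toGL A) ∧
  ∃ δ : SZ n ≃* SZ n, ∀ A, δ A = dl n ℤ A

/-- **UNT**. The group of the unitriangular matrices has class `n - 1`.

Proof. Let `U` be the group of the upper unitriangular matrices (`A i i = 1`, `A i j = 0` for `j < i`), and for `k ≥ 1` let `U_k` be the subgroup of the matrices with `A i j = 0` for `i < j < i + k` (so `U_1 = U`, `U_n = 1`). `⁅U_k, U⁆ ≤ U_{k+1}` (write `A = 1 + a`, `B = 1 + b`; `A B - B A = a b - b a` is zero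
on the diagonals `j - i < k + 1`, and `⁅A,B⁆ = 1 + (A B - B A) A⁻¹ B⁻¹`), so `lowerCentralSeries U k ≤ U_{k+1}`, and `lowerCentralSeries U (n-1) ≤ U_n = ⊥`. The elementary matrix `x_{0,k}(1) = 1 + E_{0k}` is in `lowerCentralSeries U (k-1)` for `1 ≤ k ≤ n - 1`: induction, `x_{0,k+1}(1) = ⁅x_{0,k}(1), x_{k,k+1}(1)⁆`
(`tv_comm` in `Pool/Graph/R_pool_sql_team_seeded_ab47071d/TH567/PR/Gen.lean`, or `Matrix.transvection` computations). So `c = x_{0,n-1}(1) ∈ lowerCentralSeries U (n-2)`, of infinite order (`x_{ij}(1)^m = x_{ij}(m)`). Here `lowerCentralSeries` is that of the subgroup `U`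
(`Subgroup.lowerCentralSeries`; `U.lowerCentralSeries 0 = U`, `U.lowerCentralSeries (k+1) = ⁅U.lowerCentralSeries k, U⁆`). -/
def S_UNT : Prop := ∀ (n : ℕ), 3 ≤ n → ∃ U : Subgroup (SZ n), U.lowerCentralSeries (n - 1) = ⊥ ∧
  ∃ c ∈ U.lowerCentralSeries (n - 2), ¬ IsOfFinOrder c

/-- The finitely generated residually finite groups with the same finite quotients as `SL_n(ℤ)`. -/
def Genus (n : ℕ) (Λ : Type) [Group Λ] : Prop :=
  Group.FG Λ ∧ (∀ g : Λ, g ≠ 1 → ∃ H : Subgroup Λ, H.index ≠ 0 ∧ g ∉ H) ∧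
  ∀ (Q : Type) [Group Q] [Finite Q],
    (∃ f : Λ →* Q, Function.Surjective f) ↔ (∃ f : SZ n →* Q, Function.Surjective f)

/-- **GDT** (hypotheses `S_LIM`, `S_PAD`, `S_PAI`, `S_TRZ`, `S_FAC`, `S_KER`). The data belonging to a group in the genus.

Proof. This is the first part of the proof of `Pool.Agent.H317.GR.main` (`Pool/Agent/H317/GR/Main.lean`); there `ρ 2` is shown to be injective (`hres`, `hker2`), the same proof works for all `p`. -/
def S_GDT : Prop := ∀ (n : ℕ), 3 ≤ n → ∀ (Λ : Type) [Group Λ], Genus n Λ →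
  ∃ (f : ∀ m : ℕ, Λ →* SpecialLinearGroup (Fin n) (ZMod m))
    (ρ : ∀ (p : ℕ) [Fact p.Prime], Λ →* SpecialLinearGroup (Fin n) ℤ_[p]),
    (∀ m, 0 < m → Function.Surjective (f m)) ∧ Compat f ∧
    (∀ (p : ℕ) [Fact p.Prime] (k : ℕ) (g : Λ),
      SpecialLinearGroup.map (PadicInt.toZModPow k) (ρ p g) = f (p ^ k) g) ∧
    (∀ (p : ℕ) [Fact p.Prime], DenseP (ρ p)) ∧
    (∀ (p : ℕ) [Fact p.Prime], Function.Injective (ρ p)) ∧
    (∀ g : Λ, (∀ m : ℕ, 0 < m → f m g = 1) → g = 1)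

/-- **GSZ** (no hypotheses). `SL_n(ℤ)` is in its genus.

Proof. Finitely generated: `fg_SL` in `Pool/Graph/R_pool_sql_team_seeded_ab47071d/TH567/PR/Rep.lean` (`n ≥ 2`). Residually finite: if `A ≠ 1`, choose an entry `A i j ≠ (1 : Matrix) i j` and `m > |A i j - 1 i j|`, `m ≥ 1`; the kernel of the reduction modulo `m` has finite index and does not contain `A`. -/
def S_GSZ : Prop := ∀ (n : ℕ), 3 ≤ n → Genus n (SZ n)

end Pool.Agent.H317.GH
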