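import Mathlib
import Pool.Agent.H317.GH.Stm

/-!
# Project GH, second statement file
-/

set_option autoImplicit false

namespace Pool.Agent.H317.GH

open Matrix Module Pool.Agent.H317.GR

/-- **NSD** (hypotheses `S_CNT`, `S_NFC`, `S_DSC`, `S_PAI`). Representations of degree `n` with infinite image are not self-dual.

Proof. Let `X(L) = chars Λ n L \ finChars Λ n L`, `𝔸 = AlgebraicClosure ℚ`, `K₂ = AlgebraicClosure ℚ_[2]`; `X(L)` has two elements for `L = 𝔸, K, K₂` (`S_CNT`).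
(1) Let `j : 𝔸 → L` be a ring homomorphism (`L = K` or `K₂`; it exists, `IsAlgClosed.lift`) and `ψ ∈ X(𝔸)`. Then `j ∘ ψ ∈ X(L)`: it is in `chars` (apply `j` to the matrices); if `j ∘ ψ = tr ρ'` with `ρ'` of finite image, `S_DSC` (`k = 𝔸`, `K = L`, algebra structure `j.toAlgebra`) gives `ρ'' : Λ → GL_n(𝔸)`
with `ker ρ' ≤ ker ρ''` and `tr ρ'' = ψ`, so `ψ ∈ finChars`, a contradiction. (This is step (2) of the proof of `S_TRZ`, see `Pool/Agent/H227/GR/TRZ.lean`.) As `ψ ↦ j ∘ ψ` is injective and both sets have two elements, `X(L) = {j ∘ ψ | ψ ∈ X(𝔸)}`.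
(2) `tr τ ∈ X(K)` (`S_NFC`), so `tr τ = j ∘ ψ` with `ψ ∈ X(𝔸)`. Suppose `tr τ(g) = tr τ(g⁻¹)` for all `g`. Then `ψ(g) = ψ(g⁻¹)` for all `g`, and `χ := j₂ ∘ ψ ∈ X(K₂)` satisfies `χ(g) = χ(g⁻¹)`. But the two functions `χ₂(g) = tr ρ(g)`, `χ₂'(g) = tr ρ(g⁻¹)` (in `K₂`; `ρ` is the given dense
representation over `ℤ_[2]`) are in `X(K₂)`: they are characters (of `ρ` and of `dl ∘ ρ`) and take infinitely many values (`S_PAI`), and the elements of `finChars` take finitely many values. They are different (`S_PAI`), so `X(K₂) = {χ₂, χ₂'}`, and neither is invariant under `g ↦ g⁻¹`, a contradiction. -/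
def S_NSD : Prop :=
  haveI : Fact (Nat.Prime 2) := ⟨Nat.prime_two⟩
  ∀ (n : ℕ), 3 ≤ n → ∀ (Λ : Type) [Group Λ] [Group.FG Λ],
  QLE Λ (SZ n) → QLE (SZ n) Λ →
  ∀ ρ : Λ →* SpecialLinearGroup (Fin n) ℤ_[2], DenseP ρ →
  ∀ (K : Type) [Field K] [IsAlgClosed K] [CharZero K] (τ : Λ →* GL (Fin n) K),
  (Set.range τ).Infinite → ∃ g, (τ g).val.trace ≠ (τ g⁻¹).val.trace

/-- The theorem. -/
def S_FINAL : Prop := ∀ (n : ℕ), 3 ≤ n →
  (∀ (Λ₁ Λ₂ : Type) [Group Λ₁] [Group Λ₂], Genus n Λ₁ → Genus n Λ₂ → ∀ φ : Λ₁ →* Λ₂,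
    (Set.range φ).Finite ∨ (Function.Injective φ ∧
      ∀ (Q : Type) [Group Q] [Finite Q], Function.Bijective (fun v : Λ₂ →* Q => v.comp φ))) ∧
  (∀ (Λ : Type) [Group Λ], Genus n Λ → ∀ θ : SZ n →* Λ, (Set.range θ).Infinite →
    Function.Bijective θ) ∧
  (∀ (Λ : Type) [Group Λ], Genus n Λ → ∀ φ φ' : Λ →* SZ n, (Set.range φ).Infinite →
    (Set.range φ').Infinite → ∃ α : SZ n ≃* SZ n, ∀ g, φ' g = α (φ g)) ∧
  (∀ (Λ : Type) [Group Λ], Genus n Λ → ∀ (F : Type) [Field F] [CharZero F]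
    (τ τ' : Λ →* GL (Fin n) F), (Set.range τ).Infinite → (Set.range τ').Infinite →
    ∃ P : GL (Fin n) F, (∀ g, τ' g = P * τ g * P⁻¹) ∨
      ∀ g, (τ' g).val = P.val * ((τ g⁻¹).val)ᵀ * (P⁻¹).val)

end Pool.Agent.H317.GH
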