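import Mathlib
import Pool.Agent.H317.GR.Main
import Pool.Agent.H317.GH.Stm2

/-! # Project GH: assembly -/

set_option autoImplicit false

namespace Pool.Agent.H317.GH

open Matrix Module Pool.Agent.H317.GR

theorem genus_le {n : ℕ} {Λ : Type} [Group Λ] (h : Genus n Λ) : QLE Λ (SZ n) :=
  fun Q _ _ hQ => (h.2.2 Q).1 hQ

theorem genus_ge {n : ℕ} {Λ : Type} [Group Λ] (h : Genus n Λ) : QLE (SZ n) Λ :=
  fun Q _ _ hQ => (h.2.2 Q).2 hQ

/-- part (1) -/
theorem part1 (hKEQ : S_KEQ) (hBIJ : S_BIJ) (hGDT : S_GDT) (n : ℕ) (hn : 3 ≤ n)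
    (Λ₁ Λ₂ : Type) [Group Λ₁] [Group Λ₂] (h1 : Genus n Λ₁) (h2 : Genus n Λ₂) (φ : Λ₁ →* Λ₂)
    (hφ : (Set.range φ).Infinite) :
    Function.Injective φ ∧
      ∀ (Q : Type) [Group Q] [Finite Q], Function.Bijective (fun v : Λ₂ →* Q => v.comp φ) := by
  have : Group.FG Λ₁ := h1.1
  have : Group.FG Λ₂ := h2.1
  obtain ⟨f₁, ρ₁, hs₁, hc₁, hk₁, hd₁, hi₁, hr₁⟩ := hGDT n hn Λ₁ h1
  obtain ⟨f₂, ρ₂, hs₂, hc₂, hk₂, hd₂, hi₂, hr₂⟩ := hGDT n hn Λ₂ h2
  have key := hKEQ n hn Λ₁ Λ₂ (genus_le h1) (genus_ge h1) f₁ f₂ hc₁ hc₂ (fun p hp => ρ₁ p)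
    (fun p hp => ρ₂ p) (fun p hp => hk₁ p) (fun p hp => hk₂ p) (fun p hp => hd₁ p)
    (fun p hp => hi₂ p) φ hφ
  refine ⟨?_, ?_⟩
  · rw [injective_iff_map_eq_one]
    intro g hg
    apply hr₁
    intro m hm
    rw [← key m hm g, hg, map_one]
  · intro Q _ _
    exact hBIJ n hn Λ₁ Λ₂ (genus_le h1) (genus_ge h1) (genus_le h2) (genus_ge h2) f₁ f₂ hs₁ hs₂ φ
      key Q

/-- the reductions of `SL_n(ℤ)` -/
def red (n m : ℕ) : SZ n →* SpecialLinearGroup (Fin n) (ZMod m) :=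
  SpecialLinearGroup.map (Int.castRingHom (ZMod m))

theorem red_compat (n : ℕ) : Compat (red n) := by
  intro m m' h hm' g
  apply Subtype.ext
  ext i j
  change (ZMod.castHom h (ZMod m)) ((Int.castRingHom (ZMod m')) (g.val i j)) =
    (Int.castRingHom (ZMod m)) (g.val i j)
  simp

/-- `SL_n(ℤ) → SL_n(ℤ_p)` -/
noncomputable def emb (n p : ℕ) [Fact p.Prime] : SZ n →* SpecialLinearGroup (Fin n) ℤ_[p] :=
  SpecialLinearGroup.map (Int.castRingHom ℤ_[p])

theorem emb_inj (n p : ℕ) [Fact p.Prime] : Function.Injective (emb n p) := by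
  intro A B h
  apply Subtype.ext
  ext i j
  have h1 : (emb n p A).val i j = (emb n p B).val i j := by rw [h]
  change ((A.val i j : ℤ) : ℤ_[p]) = ((B.val i j : ℤ) : ℤ_[p]) at h1
  exact_mod_cast h1

theorem emb_red (n p : ℕ) [Fact p.Prime] (k : ℕ) (g : SZ n) :
    SpecialLinearGroup.map (PadicInt.toZModPow k) (emb n p g) = red n (p ^ k) g := by
  apply Subtype.ext
  ext i j
  change (PadicInt.toZModPow k) ((Int.castRingHom ℤ_[p]) (g.val i j)) =
    (Int.castRingHom (ZMod (p ^ k))) (g.val i j)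
  simp

theorem dense_of (hKEQ : S_KEQ) (hGDT : S_GDT) (hEMB : S_EMB) (n : ℕ) (hn : 3 ≤ n)
    (Λ : Type) [Group Λ] (h : Genus n Λ) (φ : Λ →* SZ n) (hφ : (Set.range φ).Infinite) :
    PDense φ.range := by
  have : Group.FG Λ := h.1
  obtain ⟨f₁, ρ₁, hs₁, hc₁, hk₁, hd₁, hi₁, hr₁⟩ := hGDT n hn Λ h
  have key := hKEQ n hn Λ (SZ n) (genus_le h) (genus_ge h) f₁ (red n) hc₁ (red_compat n)
    (fun p hp => ρ₁ p) (fun p hp => emb n p) (fun p hp => hk₁ p) (fun p hp => emb_red n p)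
    (fun p hp => hd₁ p) (fun p hp => emb_inj n p) φ hφ
  exact hEMB n hn Λ f₁ φ hs₁ key

theorem surj_of {n : ℕ} {Λ : Type} [Group Λ] {φ : Λ →* SZ n} (h : PDense φ.range) (p : ℕ)
    (hp : p.Prime) (A : SZ n) : ∃ g, ∀ i j : Fin n, (p : ℤ) ∣ (φ g).val i j - A.val i j := by
  have : NeZero p := ⟨hp.ne_zero⟩
  have : Finite (SpecialLinearGroup (Fin n) (ZMod p)) :=
    Finite.of_injective (fun M => M.val) Subtype.val_injective
  obtain ⟨B, ⟨g, rfl⟩, hB⟩ := h (SpecialLinearGroup (Fin n) (ZMod p)) (red n p) A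
  refine ⟨g, fun i j => ?_⟩
  have h1 : (red n p (φ g)).val i j = (red n p A).val i j := by rw [hB]
  change (((φ g).val i j : ℤ) : ZMod p) = ((A.val i j : ℤ) : ZMod p) at h1
  have h2 := (ZMod.intCast_eq_intCast_iff_dvd_sub _ _ _).1 h1.symm
  exact h2

theorem std_inj (n : ℕ) (K : Type) [Field K] [CharZero K] : Function.Injective (std n K) := by
  intro A B h
  apply Subtype.ext
  ext i j
  have h1 : (std n K A).val i j = (std n K B).val i j := by rw [h]
  change ((A.val i j : ℤ) : K) = ((B.val i j : ℤ) : K) at h1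
  exact_mod_cast h1

theorem dl_inj (n : ℕ) (R : Type) [CommRing R] : Function.Injective (dl n R) := by
  intro A B h
  have h1 : ((A⁻¹).val)ᵀ = ((B⁻¹).val)ᵀ := congrArg Subtype.val h
  have h2 : (A⁻¹).val = (B⁻¹).val := Matrix.transpose_injective h1
  have h3 : A⁻¹ = B⁻¹ := Subtype.ext h2
  exact inv_injective h3

theorem inf_comp {A B C : Type} (f : A → B) (g : B → C) (hg : Function.Injective g)
    (hf : (Set.range f).Infinite) : (Set.range (g ∘ f)).Infinite := by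
  rw [Set.range_comp]
  exact hf.image hg.injOn

theorem std_trace (n : ℕ) (K : Type) [Field K] (A : SZ n) :
    (std n K A).val.trace = ((A.val.trace : ℤ) : K) := by
  change (A.val.map (Int.castRingHom K)).trace = _
  rw [Matrix.trace, Matrix.trace, Int.cast_sum]
  rfl

theorem dl_trace (n : ℕ) (A : SZ n) : (dl n ℤ A).val.trace = (A⁻¹).val.trace := by
  change ((A⁻¹).valᵀ).trace = _
  rw [Matrix.trace_transpose]

theorem two_prime : Fact (Nat.Prime 2) := ⟨Nat.prime_two⟩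

/-- equal traces -/
theorem conj_of (hKEQ : S_KEQ) (hGDT : S_GDT) (hEMB : S_EMB) (hAIQ : S_AIQ) (hCNJ : S_CNJ)
    (hZCJ : S_ZCJ) (hAUT : S_AUT) (n : ℕ) (hn : 3 ≤ n)
    (Λ : Type) [Group Λ] (h : Genus n Λ) (φ φ' : Λ →* SZ n) (hφ : (Set.range φ).Infinite)
    (ht : ∀ g, (φ' g).val.trace = (φ g).val.trace) :
    ∃ α : SZ n ≃* SZ n, ∀ g, φ' g = α (φ g) := by
  have hd := dense_of hKEQ hGDT hEMB n hn Λ h φ hφ
  have hAI : AI ((std n ℚ).comp φ) :=
    hAIQ n (by omega) Λ φ 2 Nat.prime_two (fun A => surj_of hd 2 Nat.prime_two A)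
  obtain ⟨P, hP⟩ := hCNJ ℚ Λ n ((std n ℚ).comp φ) ((std n ℚ).comp φ') hAI (by
    intro g
    change (std n ℚ (φ g)).val.trace = (std n ℚ (φ' g)).val.trace
    rw [std_trace, std_trace, ht])
  obtain ⟨T, hT⟩ := hZCJ n (by omega) Λ φ φ' (fun p hp A => surj_of hd p hp A) P hP
  obtain ⟨α, hα⟩ := (hAUT n).1 T
  refine ⟨α, fun g => ?_⟩
  have h1 : SpecialLinearGroup.toGL (φ' g) * T = SpecialLinearGroup.toGL (α (φ g)) * T := by
    rw [hT, hα]
  have h2 := mul_right_cancel h1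
  have h3 : (SpecialLinearGroup.toGL (φ' g)).val = (SpecialLinearGroup.toGL (α (φ g))).val := by
    rw [h2]
  exact Subtype.ext h3

/-- part (3) -/
theorem part3 (hPRX : S_PRX) (hNSD : S_NSD) (hKEQ : S_KEQ) (hGDT : S_GDT) (hEMB : S_EMB)
    (hAIQ : S_AIQ) (hCNJ : S_CNJ) (hZCJ : S_ZCJ) (hAUT : S_AUT) (n : ℕ) (hn : 3 ≤ n)
    (Λ : Type) [Group Λ] (h : Genus n Λ) (φ φ' : Λ →* SZ n) (hφ : (Set.range φ).Infinite)
    (hφ' : (Set.range φ').Infinite) :
    ∃ α : SZ n ≃* SZ n, ∀ g, φ' g = α (φ g) := by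
  have : Group.FG Λ := h.1
  obtain ⟨f₁, ρ₁, hs₁, hc₁, hk₁, hd₁, hi₁, hr₁⟩ := hGDT n hn Λ h
  let K := AlgebraicClosure ℚ
  have i1 : (Set.range ((std n K).comp φ)).Infinite := inf_comp φ (std n K) (std_inj n K) hφ
  have i2 : (Set.range ((std n K).comp φ')).Infinite := inf_comp φ' (std n K) (std_inj n K) hφ'
  have n1 := @hNSD n hn Λ _ _ (genus_le h) (genus_ge h) (@ρ₁ 2 two_prime) (@hd₁ 2 two_prime) K _ _ _
    ((std n K).comp φ) i1
  rcases hPRX n hn Λ (genus_le h) (genus_ge h) K ((std n K).comp φ) ((std n K).comp φ') i1 i2 n1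
    with h1 | h1
  · refine conj_of hKEQ hGDT hEMB hAIQ hCNJ hZCJ hAUT n hn Λ h φ φ' hφ fun g => ?_
    have h2 := h1 g
    change (std n K (φ' g)).val.trace = (std n K (φ g)).val.trace at h2
    rw [std_trace, std_trace] at h2
    exact_mod_cast h2
  · obtain ⟨α, hα⟩ := conj_of hKEQ hGDT hEMB hAIQ hCNJ hZCJ hAUT n hn Λ h ((dl n ℤ).comp φ) φ'
      (inf_comp φ (dl n ℤ) (dl_inj n ℤ) hφ) (by
      intro g
      have h2 := h1 g
      change (std n K (φ' g)).val.trace = (std n K (φ g⁻¹)).val.trace at h2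
      rw [std_trace, std_trace] at h2
      change _ = (dl n ℤ (φ g)).val.trace
      rw [dl_trace, ← map_inv]
      exact_mod_cast h2)
    obtain ⟨δ, hδ⟩ := (hAUT n).2
    refine ⟨δ.trans α, fun g => ?_⟩
    rw [hα]
    change α (dl n ℤ (φ g)) = α (δ (φ g))
    rw [hδ]

/-- part (2) -/
theorem part2 (hKEQ : S_KEQ) (hBIJ : S_BIJ) (hGDT : S_GDT) (hGSZ : S_GSZ) (hUNT : S_UNT)
    (hMAIN : S_MAIN)
    (n : ℕ) (hn : 3 ≤ n)
    (h3 : ∀ φ φ' : SZ n →* SZ n, (Set.range φ).Infinite →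
      (Set.range φ').Infinite → ∃ α : SZ n ≃* SZ n, ∀ g, φ' g = α (φ g))
    (Λ : Type) [Group Λ] (h : Genus n Λ) (θ : SZ n →* Λ) (hθ : (Set.range θ).Infinite) :
    Function.Bijective θ := by
  have hg := hGSZ n hn
  obtain ⟨hinj, -⟩ := part1 hKEQ hBIJ hGDT n hn (SZ n) Λ hg h θ hθ
  obtain ⟨U, hU, c, hc, hc'⟩ := hUNT n hn
  obtain ⟨β⟩ := hMAIN n hn Λ h.1 h.2.1 h.2.2 ⟨U.map θ, by
    rw [← Subgroup.map_lowerCentralSeries, hU, Subgroup.map_bot], θ c, by
    rw [← Subgroup.map_lowerCentralSeries]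
    exact Subgroup.mem_map_of_mem θ hc, by
    intro hfin
    obtain ⟨k, hk, hk'⟩ := isOfFinOrder_iff_pow_eq_one.1 hfin
    apply hc'
    refine isOfFinOrder_iff_pow_eq_one.2 ⟨k, hk, hinj ?_⟩
    rw [map_pow, hk', map_one]⟩
  have i1 : (Set.range (MonoidHom.id (SZ n))).Infinite := by
    have h4 : (Set.range θ).Infinite := hθ
    intro hfin
    apply h4
    have h5 : Set.range θ = θ '' (Set.range (MonoidHom.id (SZ n))) := by
      ext y
      simp
    rw [h5]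
    exact hfin.image _
  obtain ⟨α, hα⟩ := h3 (MonoidHom.id (SZ n)) (β.toMonoidHom.comp θ) i1
    (inf_comp θ β β.injective hθ)
  have h6 : ∀ g, θ g = β.symm (α g) := by
    intro g
    have h7 := hα g
    change β (θ g) = α g at h7
    rw [← h7, MulEquiv.symm_apply_apply]
  have h8 : (θ : SZ n → Λ) = β.symm ∘ α := funext h6
  rw [h8]
  exact β.symm.bijective.comp α.bijective

/-- the contragredient representation -/
def ctr {G : Type} [Group G] {n : ℕ} {F : Type} [Field F] (τ : G →* GL (Fin n) F) :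
    G →* GL (Fin n) F where
  toFun g := ⟨((τ g⁻¹).val)ᵀ, ((τ g).val)ᵀ, by
    rw [← Matrix.transpose_mul]
    have h : (τ g).val * (τ g⁻¹).val = 1 := by
      rw [← Units.val_mul, ← map_mul, mul_inv_cancel, map_one]
      rfl
    rw [h, Matrix.transpose_one], by
    rw [← Matrix.transpose_mul]
    have h : (τ g⁻¹).val * (τ g).val = 1 := by
      rw [← Units.val_mul, ← map_mul, inv_mul_cancel, map_one]
      rfl
    rw [h, Matrix.transpose_one]⟩
  map_one' := by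
    apply Units.ext
    change ((τ 1⁻¹).val)ᵀ = 1
    rw [inv_one, map_one]
    exact Matrix.transpose_one
  map_mul' a b := by
    apply Units.ext
    change ((τ (a * b)⁻¹).val)ᵀ = ((τ a⁻¹).val)ᵀ * ((τ b⁻¹).val)ᵀ
    rw [← Matrix.transpose_mul, _root_.mul_inv_rev, map_mul]
    rfl

theorem ctr_trace {G : Type} [Group G] {n : ℕ} {F : Type} [Field F] (τ : G →* GL (Fin n) F)
    (g : G) : (ctr τ g).val.trace = (τ g⁻¹).val.trace :=
  Matrix.trace_transpose _

theorem ctr_inf {G : Type} [Group G] {n : ℕ} {F : Type} [Field F] (τ : G →* GL (Fin n) F)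
    (h : (Set.range τ).Infinite) : (Set.range (ctr τ)).Infinite := by
  intro hfin
  apply h
  have hinj : Function.Injective (fun M : GL (Fin n) F => (M.val)ᵀ) := by
    intro M N hMN
    exact Units.ext (Matrix.transpose_injective hMN)
  have h2 : Set.range τ ⊆ (fun M : GL (Fin n) F => (M.val)ᵀ) ⁻¹'
      ((fun M : GL (Fin n) F => M.val) '' Set.range (ctr τ)) := by
    rintro _ ⟨g, rfl⟩
    refine ⟨ctr τ g⁻¹, ⟨g⁻¹, rfl⟩, ?_⟩
    change ((τ (g⁻¹)⁻¹).val)ᵀ = ((τ g).val)ᵀ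
    rw [inv_inv]
  exact ((hfin.image _).preimage hinj.injOn).subset h2

theorem map_trace {n : ℕ} {F K : Type} [Field F] [Field K] (j : F →+* K) (A : GL (Fin n) F) :
    (GeneralLinearGroup.map j A).val.trace = j A.val.trace := by
  change (A.val.map j).trace = _
  rw [Matrix.trace, Matrix.trace, map_sum]
  rfl

/-- absolute irreducibility descends -/
theorem ai_desc {G : Type} [Group G] {n : ℕ} {F K : Type} [Field F] [Field K] (j : F →+* K)
    (τ : G →* GL (Fin n) F) (h : AI ((GeneralLinearGroup.map j).comp τ)) : AI τ := by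
  intro X hX
  have h1 := h (X.map j) (by
    intro g
    change (X.map j * (τ g).val.map j).trace = 0
    rw [← Matrix.map_mul]
    have h2 : ((X * (τ g).val).map j).trace = j (X * (τ g).val).trace := by
      rw [Matrix.trace, Matrix.trace, map_sum]
      rfl
    rw [h2, hX g, map_zero])
  ext a b
  have h2 := congrFun (congrFun h1 a) b
  change j (X a b) = 0 at h2
  exact (map_eq_zero j).1 h2

/-- part (4) -/
theorem part4 (hPRX : S_PRX) (hNSD : S_NSD) (hGDT : S_GDT) (hIRN : S_IRN) (hCNJ : S_CNJ)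
    (n : ℕ) (hn : 3 ≤ n)
    (Λ : Type) [Group Λ] (h : Genus n Λ) (F : Type) [Field F] [CharZero F]
    (τ τ' : Λ →* GL (Fin n) F) (hτ : (Set.range τ).Infinite) (hτ' : (Set.range τ').Infinite) :
    ∃ P : GL (Fin n) F, (∀ g, τ' g = P * τ g * P⁻¹) ∨
      ∀ g, (τ' g).val = P.val * ((τ g⁻¹).val)ᵀ * (P⁻¹).val := by
  have : Group.FG Λ := h.1
  obtain ⟨f₁, ρ₁, hs₁, hc₁, hk₁, hd₁, hi₁, hr₁⟩ := hGDT n hn Λ h
  let K := AlgebraicClosure F
  have : CharZero K := charZero_of_injective_algebraMap (algebraMap F K).injective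
  let j := algebraMap F K
  have ai : ∀ σ : Λ →* GL (Fin n) F, (Set.range σ).Infinite → AI σ := by
    intro σ hσ
    apply ai_desc j
    have h0 : (Set.range ((GeneralLinearGroup.map j).comp σ)).Infinite :=
      inf_comp σ (GeneralLinearGroup.map j) (glmap_inj n F K j) hσ
    apply hIRN n hn Λ (genus_le h) K
    by_contra hall
    push Not at hall
    apply h0
    apply (Set.finite_singleton (1 : GL (Fin n) K)).subset
    rintro _ ⟨g, rfl⟩
    exact hall g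
  have i1 : (Set.range ((GeneralLinearGroup.map j).comp τ)).Infinite :=
    inf_comp τ (GeneralLinearGroup.map j) (glmap_inj n F K j) hτ
  have i2 : (Set.range ((GeneralLinearGroup.map j).comp τ')).Infinite :=
    inf_comp τ' (GeneralLinearGroup.map j) (glmap_inj n F K j) hτ'
  have n1 := @hNSD n hn Λ _ _ (genus_le h) (genus_ge h) (@ρ₁ 2 two_prime) (@hd₁ 2 two_prime) K _ _ _
    ((GeneralLinearGroup.map j).comp τ) i1
  rcases hPRX n hn Λ (genus_le h) (genus_ge h) K _ ((GeneralLinearGroup.map j).comp τ') i1 i2 n1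
    with h1 | h1
  · obtain ⟨P, hP⟩ := hCNJ F Λ n τ τ' (ai τ hτ) (by
      intro g
      have h2 := h1 g
      change (GeneralLinearGroup.map j (τ' g)).val.trace =
        (GeneralLinearGroup.map j (τ g)).val.trace at h2
      rw [map_trace, map_trace] at h2
      exact (j.injective h2).symm)
    refine ⟨P, Or.inl fun g => ?_⟩
    rw [← hP g, mul_inv_cancel_right]
  · obtain ⟨P, hP⟩ := hCNJ F Λ n (ctr τ) τ' (ai (ctr τ) (ctr_inf τ hτ)) (by
      intro g
      have h2 := h1 g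
      change (GeneralLinearGroup.map j (τ' g)).val.trace =
        (GeneralLinearGroup.map j (τ g⁻¹)).val.trace at h2
      rw [map_trace, map_trace] at h2
      rw [ctr_trace]
      exact (j.injective h2).symm)
    refine ⟨P, Or.inr fun g => ?_⟩
    have h3 : τ' g = P * ctr τ g * P⁻¹ := by rw [← hP g, mul_inv_cancel_right]
    rw [h3]
    rfl

theorem main (hPRX : S_PRX) (hNSD : S_NSD) (hKEQ : S_KEQ) (hBIJ : S_BIJ) (hGDT : S_GDT)
    (hGSZ : S_GSZ) (hUNT : S_UNT) (hMAIN : S_MAIN) (hEMB : S_EMB)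
    (hAIQ : S_AIQ) (hCNJ : S_CNJ) (hZCJ : S_ZCJ) (hAUT : S_AUT) (hIRN : S_IRN) : S_FINAL := by
  intro n hn
  have p3 := fun (Λ : Type) (_ : Group Λ) (h : Genus n Λ) =>
    part3 hPRX hNSD hKEQ hGDT hEMB hAIQ hCNJ hZCJ hAUT n hn Λ h
  refine ⟨?_, ?_, ?_, ?_⟩
  · intro Λ₁ Λ₂ _ _ h1 h2 φ
    by_cases hf : (Set.range φ).Finite
    · exact Or.inl hf
    · exact Or.inr (part1 hKEQ hBIJ hGDT n hn Λ₁ Λ₂ h1 h2 φ hf)
  · intro Λ _ h θ hθ
    exact part2 hKEQ hBIJ hGDT hGSZ hUNT hMAIN n hn (p3 (SZ n) _ (hGSZ n hn)) Λ h θ hθ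
  · intro Λ _ h φ φ' hφ hφ'
    exact p3 Λ _ h φ φ' hφ hφ'
  · intro Λ _ h F _ _ τ τ' hτ hτ'
    exact part4 hPRX hNSD hGDT hIRN hCNJ n hn Λ h F τ τ' hτ hτ'

end Pool.Agent.H317.GH
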