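import Mathlib
import Pool.Agent.H317.GR.All
import Pool.Agent.H317.GH.Main
import Pool.Agent.H385.GH.BUR
import Pool.Agent.H501.GH.IRN
import Pool.Agent.H363.GH.NFC
import Pool.Agent.H100.GH.PRX
import Pool.Agent.H695.GH.INH
import Pool.Agent.H840.GH.MOE
import Pool.Agent.H84.GH.KEQ
import Pool.Agent.H764.GH.BIJ
import Pool.Agent.H965.GH.AIQ
import Pool.Agent.H390.GH.ZCJ
import Pool.Agent.H399.GH.AUT
import Pool.Agent.H736.GH.UNT
import Pool.Agent.H664.GH.GDT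
import Pool.Agent.H972.GH.GSZ
import Pool.Agent.H169.GH.NSD

/-! # Project GH: all parts -/

set_option autoImplicit false

namespace Pool.Agent.H317.GH

open Pool.Agent.H317.GR

theorem t_irn : S_IRN := Pool.Agent.H501.GH.irn Pool.Agent.H385.GH.bur

theorem t_nfc : S_NFC := Pool.Agent.H363.GH.nfc t_irn Pool.Agent.H355.GR.cnj

theorem t_prx : S_PRX := Pool.Agent.H100.GH.prx t_cnt t_nfc

theorem t_nsd : S_NSD :=
  Pool.Agent.H169.GH.nsd t_cnt t_nfc Pool.Agent.H772.GR.dsc Pool.Agent.H322.GR.pai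

theorem t_keq : S_KEQ :=
  Pool.Agent.H84.GH.keq t_prx Pool.Agent.H322.GR.pai Pool.Agent.H355.GR.cnj
    Pool.Agent.H695.GH.inh Pool.Agent.H840.GH.moe

theorem t_bij : S_BIJ := Pool.Agent.H764.GH.bij Pool.Agent.H400.GR.hom t_fac

theorem t_gdt : S_GDT :=
  Pool.Agent.H664.GH.gdt t_lim Pool.Agent.H274.GR.pad Pool.Agent.H322.GR.pai t_trz t_fac
    Pool.Agent.H195.GR.ker

theorem t_final : S_FINAL :=
  main t_prx t_nsd t_keq t_bij t_gdt Pool.Agent.H972.GH.gsz Pool.Agent.H736.GH.unt t_main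
    Pool.Agent.H297.GR.emb Pool.Agent.H965.GH.aiq Pool.Agent.H355.GR.cnj Pool.Agent.H390.GH.zcj
    Pool.Agent.H399.GH.aut t_irn

end Pool.Agent.H317.GH
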